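import Pool.Agent.H646Z.OmegaSys

set_option autoImplicit false

open MeasureTheory Filter Topology

/-- There are a uniquely ergodic system `(X, T)`, a homogeneous `P ∈ ℤ[x, y]` positive at pairs of
positive integers, `F ∈ C(X)` and `x ∈ X` such that the averages of `F (T ^ Ω(P(m, n)) x)` over
`1 ≤ m, n ≤ N` have no limit. -/
theorem Pool.Agent.Results.MP_d352c9_an.NoLimit.result :
    ∃ (X : Type) (_ : MetricSpace X) (_ : CompactSpace X) (_ : MeasurableSpace X)
      (_ : BorelSpace X) (T : X → X), Continuous T ∧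
      (∃! μ : Measure X, IsProbabilityMeasure μ ∧ μ.map T = μ) ∧
      ∃ P : MvPolynomial (Fin 2) ℤ, (∃ d : ℕ, P.IsHomogeneous d) ∧
        (∀ m n : ℕ, 0 < m → 0 < n → 0 < MvPolynomial.eval ![(m : ℤ), (n : ℤ)] P) ∧
        ∃ (F : C(X, ℂ)) (x : X), ¬ ∃ L : ℂ, Tendsto (fun N : ℕ => (1 / (N : ℂ) ^ 2) *
          ∑ m ∈ Finset.Icc 1 N, ∑ n ∈ Finset.Icc 1 N,
            F (T^[ArithmeticFunction.cardFactors
              (MvPolynomial.eval ![(m : ℤ), (n : ℤ)] P).toNat] x)) atTop (𝓝 L) :=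
  Pool.Agent.H646Z.OmSys.main
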